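import Pool.Agent.Helper58_MOO.Stmts

/-!
Squad MOO, module GDM (helper37): club many models are good.
-/

open Cardinal
open Pool.Agent.Helper69_LOTS

namespace Pool.Agent.MOO.H37

open Node

theorem gdm : GdmStmt := by
  classical
  intro C₀ hC₀
  have ho : Function.Injective (fun ξ : Om => ({ξ} : Set Om)) := Set.singleton_injective
  have h1 := Clb.cmX (X := Set Om) ho hC₀
  have h2 : CM (fun N : Set (Set Om) => ∀ D ∈ N, Clb D →
      ∃ δ ∈ D, ∀ ξ, ({ξ} : Set Om) ∈ N ↔ ξ < δ) := by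
    refine CM.diag (X := Set Om)
      (Φ := fun D N => Clb D → ∃ δ ∈ D, ∀ ξ, ({ξ} : Set Om) ∈ N ↔ ξ < δ) (fun D => ?_)
    by_cases hD : Clb D
    · exact (Clb.cmX (X := Set Om) ho hD).mono (fun M _ h _ => h)
    · exact ⟨fun _ _ => ∅, fun M _ _ h => absurd h hD⟩
  refine (h1.and h2).mono ?_
  rintro N hN ⟨⟨δ, hδ, hδ'⟩, h3⟩
  have he : dlt N = δ := dlt_eq hδ'
  refine ⟨hN, fun ξ => ?_, ?_, fun D hD hcl => ?_⟩
  · rw [he]; exact hδ' ξ
  · rw [he]; exact hδ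
  · obtain ⟨δ', h4, h5⟩ := h3 D hD hcl
    have : dlt N = δ' := dlt_eq h5
    rw [this]; exact h4

end Pool.Agent.MOO.H37
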