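import Pool.Agent.Helper58_MOO.Stmts

/-!
Squad MOO, module PRN (helper37): pruning.
-/

open Cardinal
open Pool.Agent.Helper69_LOTS

namespace Pool.Agent.MOO.H37

open Node

theorem prn : PrnStmt := by
  classical
  intro T A hT hA
  obtain ⟨hAT, htree, hlev⟩ := hA
  set B : Set Node := {s | s ∈ A ∧ ∀ δ, s.ht ≤ δ → ∃ t ∈ A, s ≤ t ∧ t.ht = δ} with hB
  have key : ∀ s ∈ B, ∀ δ, s.ht ≤ δ → ∃ t ∈ B, s ≤ t ∧ t.ht = δ := by
    intro s hs δ hδ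
    by_contra hcon
    push Not at hcon
    have h1 : ∀ t : Node, ∃ ε : Om, (t ∈ A ∧ s ≤ t ∧ t.ht = δ) →
        δ ≤ ε ∧ ∀ u ∈ A, t ≤ u → u.ht ≠ ε := by
      intro t
      by_cases ht : t ∈ A ∧ s ≤ t ∧ t.ht = δ
      · have h2 : t ∉ B := fun h => hcon t h ht.2.1 ht.2.2
        have h3 : ¬ ∀ ε, t.ht ≤ ε → ∃ u ∈ A, t ≤ u ∧ u.ht = ε := fun h => h2 ⟨ht.1, h⟩
        push Not at h3
        obtain ⟨ε, h4, h5⟩ := h3
        exact ⟨ε, fun _ => ⟨ht.2.2 ▸ h4, h5⟩⟩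
      · exact ⟨δ, fun h => absurd h ht⟩
    choose ε hε using h1
    have hcount : {t | t ∈ A ∧ s ≤ t ∧ t.ht = δ}.Countable := by
      refine Set.Countable.mono ?_ (hT.lev δ)
      intro t ht
      exact ⟨hAT ht.1, ht.2.2⟩
    obtain ⟨β, hβ⟩ := Om_bdd ((hcount.image ε).insert δ)
    have hδβ : δ < β := hβ δ (Set.mem_insert _ _)
    obtain ⟨u, huA, hsu, huβ⟩ := hs.2 β (hδ.trans hδβ.le)
    have ht : u.res δ ∈ A ∧ s ≤ u.res δ ∧ (u.res δ).ht = δ :=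
      ⟨htree u huA δ, le_res hsu hδ, res_ht_of_le (huβ ▸ hδβ.le)⟩
    obtain ⟨h6, h7⟩ := hε _ ht
    have h8 : ε (u.res δ) < β := hβ _ (Set.mem_insert_of_mem _ ⟨_, ht, rfl⟩)
    exact h7 (u.res (ε (u.res δ))) (htree u huA _) (res_le_res u h6)
      (res_ht_of_le (huβ ▸ h8.le))
  refine ⟨B, fun s hs => hs.1, ⟨fun s hs => hAT hs.1, ?_, ?_⟩, key⟩
  · intro s hs ξ
    refine ⟨htree s hs.1 ξ, fun δ hδ => ?_⟩
    rcases le_total δ s.ht with h | h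
    · exact ⟨s.res δ, htree s hs.1 δ, le_res (res_le s ξ) hδ, res_ht_of_le h⟩
    · obtain ⟨t, ht, h1, h2⟩ := hs.2 δ h
      exact ⟨t, ht, (res_le s ξ).trans h1, h2⟩
  · intro δ
    obtain ⟨z, -, hz⟩ := Om_least (p := fun _ => True) ⟨δ, trivial⟩
    have hz' : ∀ η, z ≤ η := fun η => not_lt.1 (fun h => hz η h trivial)
    obtain ⟨r, hrA, hr⟩ := hlev z
    have hrB : r ∈ B := by
      refine ⟨hrA, fun ε _ => ?_⟩
      obtain ⟨t, ht, ht'⟩ := hlev ε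
      refine ⟨t, ht, ⟨?_, fun η hη => ?_⟩, ht'⟩
      · rw [hr]; exact hz' _
      · rw [hr] at hη
        exact absurd hη (not_lt.2 (hz' η))
    obtain ⟨t, ht, -, ht'⟩ := key r hrB δ (by rw [hr]; exact hz' _)
    exact ⟨t, ht, ht'⟩

end Pool.Agent.MOO.H37
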