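import Pool.Agent.Helper58_MOO.Stmts

/-!
Squad MOO, module REG (helper37): the generic embedding.
-/

open Cardinal
open Pool.Agent.Helper69_LOTS

namespace Pool.Agent.MOO.H37

open Node

theorem reg (h1 : CrdStmt) (h2 : RepStmt) (h3 : RedStmt) : RegStmt := by
  classical
  intro hPFA x y hx hy hy2
  obtain ⟨⟨c, hc⟩, ⟨ln, hln⟩, -⟩ := h1
  have hne : Nonempty (RE x y ln c) :=
    ⟨{ f := ∅
       H := ∅
       S := ∅
       hH := fun N hN => absurd hN (Finset.notMem_empty N)
       hS := fun N hN => absurd hN (Finset.notMem_empty N)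
       ch := fun N N' hN => by simp at hN
       fn := fun p hp => absurd hp (Finset.notMem_empty p)
       inc := fun p hp => absurd hp (Finset.notMem_empty p)
       r1 := fun p hp => absurd hp (Finset.notMem_empty p)
       r2 := fun p hp => absurd hp (Finset.notMem_empty p)
       r3 := fun p hp => absurd hp (Finset.notMem_empty p) }⟩
  obtain ⟨G, -, -, hdir, hG⟩ := hPFA (RE x y ln c) (h2 x y ln c hx hy hln hc)
    (fun α => {p | ∃ β, (α, β) ∈ p.f}) (h3 x y ln c hx hy hln hc hy2)
  choose p hp hp' using hG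
  choose f hf using hp'
  refine ⟨f, fun α β hαβ => ?_⟩
  obtain ⟨r, -, hr1, hr2⟩ := hdir _ (hp α) _ (hp β)
  exact r.inc (α, f α) (hr1.1 (hf α)) (β, f β) (hr2.1 (hf β)) hαβ

end Pool.Agent.MOO.H37
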