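import Pool.Agent.Helper58_MOO.Stmts

/-!
Squad MOO, module SDP (helper37): properness and density of `SD`.
-/

open Cardinal
open Pool.Agent.Helper69_LOTS

namespace Pool.Agent.MOO.H37

open Node

/-- one more step -/
theorem sd_step {T : Set Node} {F : Set Node → Prop} (p : SD T F) {γ : Om} (h : p.len < γ)
    (hs : ∀ η, p.len < η → η < γ → False) : ∃ q : SD T F, q ≤ p ∧ q.len = γ := by
  classical
  obtain ⟨β, hβ⟩ := Om_exists_gt (p.dl p.len)
  have hcase : ∀ η, η ≤ γ → η ≤ p.len ∨ η = γ := by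
    intro η hη
    by_cases h1 : η ≤ p.len
    · exact Or.inl h1
    · right
      by_contra h2
      exact hs η (not_le.1 h1) (lt_of_le_of_ne hη h2)
  have hle : ∀ ξ, ξ < γ → ξ ≤ p.len := fun ξ hξ => by
    rcases hcase ξ hξ.le with h1 | h1
    · exact h1
    · exact absurd h1 hξ.ne
  have hlim : ∀ ν, ν ≤ γ → IsLim ν → ν ≤ p.len := by
    intro ν hν hl
    rcases hcase ν hν with h1 | h1
    · exact h1
    · subst h1
      obtain ⟨η, h2, h3⟩ := hl.2 p.len h
      exact (hs η h2 h3).elim
  have hγ : ¬ γ ≤ p.len := not_le.2 h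
  refine ⟨{ len := γ
            dl := fun ξ => if ξ ≤ p.len then p.dl ξ else β
            N := fun ξ => if ξ ≤ p.len then p.N ξ else p.N p.len
            dmono := ?_
            dcont := ?_
            cnt := ?_
            fam := ?_
            nmono := ?_
            ncont := ?_
            side := ?_ }, ⟨h.le, fun ξ hξ => ⟨?_, ?_⟩⟩, rfl⟩
  · intro ξ η hξη hη
    have h1 : ξ ≤ p.len := hle ξ (hξη.trans_le hη)
    simp only [if_pos h1]
    by_cases h2 : η ≤ p.len
    · simp only [if_pos h2]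
      exact p.dmono ξ η hξη h2
    · simp only [if_neg h2]
      rcases h1.lt_or_eq with h3 | h3
      · exact (p.dmono ξ p.len h3 le_rfl).trans hβ
      · rw [h3]; exact hβ
  · intro ν hν hl α hα
    have h1 := hlim ν hν hl
    simp only [if_pos h1] at hα
    obtain ⟨ξ, h2, h3⟩ := p.dcont ν h1 hl α hα
    refine ⟨ξ, h2, ?_⟩
    simp only [if_pos (h2.le.trans h1)]
    exact h3
  · intro ξ _
    by_cases h2 : ξ ≤ p.len
    · simp only [if_pos h2]; exact p.cnt ξ h2
    · simp only [if_neg h2]; exact p.cnt _ le_rfl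
  · intro ξ _ B hB
    by_cases h2 : ξ ≤ p.len
    · simp only [if_pos h2] at hB; exact p.fam ξ h2 B hB
    · simp only [if_neg h2] at hB; exact p.fam _ le_rfl B hB
  · intro ξ η hξη _
    by_cases h2 : η ≤ p.len
    · simp only [if_pos h2, if_pos (hξη.trans h2)]
      exact p.nmono ξ η hξη h2
    · simp only [if_neg h2]
      by_cases h3 : ξ ≤ p.len
      · simp only [if_pos h3]
        exact p.nmono ξ p.len h3 le_rfl
      · simp only [if_neg h3]; exact subset_rfl
  · intro ν hν hl B hB
    have h1 := hlim ν hν hl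
    simp only [if_pos h1] at hB
    obtain ⟨ξ, h2, h3⟩ := p.ncont ν h1 hl B hB
    refine ⟨ξ, h2, ?_⟩
    simp only [if_pos (h2.le.trans h1)]
    exact h3
  · intro ν hν hl t ht htν
    have h1 := hlim ν hν hl
    simp only [if_pos h1] at htν
    rcases p.side ν h1 hl t ht htν with ⟨ξ₀, h2, h3⟩ | ⟨ξ₀, h2, h3⟩
    · refine Or.inl ⟨ξ₀, h2, fun ξ h4 h5 => ?_⟩
      simp only [if_pos (h5.le.trans h1)]
      exact h3 ξ h4 h5
    · refine Or.inr ⟨ξ₀, h2, fun ξ h4 h5 => ?_⟩
      simp only [if_pos (h5.le.trans h1)]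
      exact h3 ξ h4 h5
  · simp only [if_pos hξ]
  · simp only [if_pos hξ]

theorem sdp (h1 : SdcStmt) : SdpStmt := by
  classical
  intro T F hT hF hF'
  have hcm := h1 T F hT hF hF'
  refine ⟨?_, ?_, ?_⟩
  · obtain ⟨z, -, hz⟩ := Om_least (p := fun _ : Om => True) ⟨Classical.arbitrary Om, trivial⟩
    have hz' : ∀ ν, ν ≤ z → IsLim ν → False := by
      intro ν hν hl
      obtain ⟨ξ, hξ⟩ := hl.1
      exact hz ξ (hξ.trans_le hν) trivial
    exact ⟨{ len := z
             dl := fun ξ => ξ
             N := fun _ => ∅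
             dmono := fun ξ η h _ => h
             dcont := fun ν hν hl => (hz' ν hν hl).elim
             cnt := fun _ _ => Set.countable_empty
             fam := fun _ _ B hB => hB.elim
             nmono := fun _ _ _ _ => subset_rfl
             ncont := fun ν hν hl => (hz' ν hν hl).elim
             side := fun ν hν hl => (hz' ν hν hl).elim }⟩
  · refine CM.mono hcm (fun M _ hM p hp => ?_)
    obtain ⟨q, hq, hq'⟩ := hM p hp
    refine ⟨q, hq, fun D hD hDM r hr => ?_⟩
    obtain ⟨d, hd, hd1, hd2⟩ := hq' D hD hDM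
    exact ⟨d, hd, hd1, r, hr.trans hd2, le_rfl⟩
  · intro γ
    induction γ using WellFoundedLT.induction with
    | _ γ ih =>
      by_cases hlim : IsLim γ
      · intro p
        have hA : (insert (Sum.inl p) ((fun γ' : Om => (Sum.inr {p : SD T F | γ' ≤ p.len} :
            SD T F ⊕ Set (SD T F))) '' Set.Iio γ)).Countable :=
          ((Om_Iio_countable γ).image _).insert _
        obtain ⟨M, hAM, -, hM⟩ := hcm.exists_ge _ hA
        obtain ⟨q, hq, hq'⟩ := hM p (hAM (Set.mem_insert _ _))
        refine ⟨q, ?_, hq⟩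
        show γ ≤ q.len
        by_contra hcon
        obtain ⟨η, h3, h4⟩ := hlim.2 q.len (not_le.1 hcon)
        obtain ⟨d, hd, -, hd2⟩ := hq' {p | η ≤ p.len} (ih η h4)
          (hAM (Set.mem_insert_of_mem _ ⟨η, h4, rfl⟩))
        exact absurd (le_trans (show η ≤ d.len from hd) hd2.1) (not_le.2 h3)
      · by_cases h0 : ∃ ξ, ξ < γ
        · have h2 : ∃ ξ, ξ < γ ∧ ∀ η, ξ < η → ¬ η < γ := by
            by_contra hcon
            push Not at hcon
            exact hlim ⟨h0, fun ξ hξ => hcon ξ hξ⟩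
          obtain ⟨ξ, h3, h4⟩ := h2
          intro p
          obtain ⟨q, hq, hqp⟩ := ih ξ h3 p
          by_cases h5 : γ ≤ q.len
          · exact ⟨q, h5, hqp⟩
          · have h6 : q.len = ξ := by
              by_contra h7
              exact h4 q.len (lt_of_le_of_ne hq (Ne.symm h7)) (not_le.1 h5)
            obtain ⟨q', h7, h8⟩ := sd_step q (not_le.1 h5) (fun η h9 h10 => h4 η (h6 ▸ h9) h10)
            exact ⟨q', h8.ge, h7.trans hqp⟩
        · intro p
          refine ⟨p, ?_, le_rfl⟩
          show γ ≤ p.len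
          by_contra hcon
          exact h0 ⟨p.len, not_le.1 hcon⟩

end Pool.Agent.MOO.H37
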